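import Pool.Graph.R_pool_sql_team_seeded_3997aac3.Results.MP_cbfcf7_gt.MilnorWood
import Pool.Agent.H10.MW.All
import Pool.Agent.H10.MW.Orn

/-!
MP_cbfcf7_gt, Q1: the Milnor-Wood inequality for all area preserving actions of surface groups on
the plane by orientation preserving homeomorphisms.

`PlaneLift` (library `PlaneEuler`): homeomorphisms `f` of the plane with a continuous choice, over
all ordered pairs `p ≠ q`, of an argument of `(f q - f p) / (q - p)`; this is the universal central
extension (by `ℤ`) of the group of orientation preserving homeomorphisms.  `HasEulerNumber ρ n`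
says that the standard generators of the surface group have lifts and that for all lifts the
product of the commutators `[A_i, B_i]` is the central element `central n`.

The library had the inequality for actions whose generators are limits, uniform on compact sets,
of area preserving diffeomorphisms.  The new ingredient is `smoothing`: every homeomorphism of the
plane which preserves the area and the orientation is such a limit.  It is proved in
`Pool.Agent.H10.MW.All` and the modules imported there.
-/

set_option autoImplicit false

open Filter Topology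
open scoped commutatorElement ContDiff

namespace Pool.Agent.Results.MP_cbfcf7_gt.MilnorWoodHomeo

open Pool.Agent.Helper11.PlaneEuler

/-- `f` preserves the orientation: it has a lift to `PlaneLift`, that is, an argument of
`(f q - f p) / (q - p)` can be chosen continuously over all ordered pairs `p ≠ q`.
(`oriented_iff`: exactly one of `f`, `conj ∘ f` has this property.) -/
def Oriented (f : ℂ ≃ₜ ℂ) : Prop := ∃ F : PlaneLift, F.homeo = f

/-- area preserving smooth diffeomorphism of the plane: smooth with smooth inverse, and with
Jacobian determinant one everywhere -/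
def APDiffeo (h : ℂ ≃ₜ ℂ) : Prop :=
  ContDiff ℝ ∞ h ∧ ContDiff ℝ ∞ h.symm ∧ ∀ z : ℂ, (fderiv ℝ h z).det = 1

/-- complex conjugation -/
noncomputable def conjHomeo : ℂ ≃ₜ ℂ := Complex.conjCLE.toHomeomorph

/-- for every homeomorphism of the plane exactly one of `f`, `conj ∘ f` preserves the
orientation -/
theorem oriented_iff (f : ℂ ≃ₜ ℂ) : Oriented f ↔ ¬ Oriented (f.trans conjHomeo) :=
  Pool.Agent.H10.MW.op_iff f

/-- homeomorphisms of the plane which preserve the area and the orientation are limits, uniform on
compact sets, of area preserving diffeomorphisms -/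
theorem smoothing (f : ℂ ≃ₜ ℂ) (hf : MeasureTheory.MeasurePreserving f) (ho : Oriented f) (r ε : ℝ)
    (hε : 0 < ε) : ∃ h : ℂ ≃ₜ ℂ, APDiffeo h ∧ ∀ z : ℂ, ‖z‖ ≤ r → ‖h z - f z‖ < ε := by
  obtain ⟨h, hg, hJ, hh⟩ := Pool.Agent.H10.MW.p_FIN f ho hf r ε hε
  exact ⟨h, ⟨Pool.Agent.H10.MW.contDiff_of_good hg,
    Pool.Agent.H10.MW.contDiff_of_good (Pool.Agent.H10.MW.good_symm h hg), hJ⟩, hh⟩

/-- The Milnor-Wood inequality for area preserving actions of surface groups on the plane by
orientation preserving homeomorphisms: the action has exactly one Euler number `n`, and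
`|n| ≤ 2 g - 2`. -/
theorem result (g : ℕ) (hg : 1 ≤ g) (ρ : SurfaceGroup g →* (ℂ ≃ₜ ℂ))
    (ho : ∀ γ : SurfaceGroup g, Oriented (ρ γ))
    (hm : ∀ γ : SurfaceGroup g, MeasureTheory.MeasurePreserving (ρ γ)) :
    ∃ n : ℤ, (∀ m : ℤ, HasEulerNumber ρ m ↔ m = n) ∧ |n| ≤ 2 * (g : ℤ) - 2 :=
  (Pool.Agent.Results.MP_cbfcf7_gt.MilnorWood.result g hg ρ).2.2
    (fun f hf r ε hε => smoothing f hf.1 hf.2 r ε hε) fun γ => ⟨hm γ, ho γ⟩

end Pool.Agent.Results.MP_cbfcf7_gt.MilnorWoodHomeo
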